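import Pool.Agent.Lib.MP_211349_ag.Y.Final

/-!
# A negative answer to the p-adic Ehrenpreis question in characteristic zero for all fields whose
residue field is not algebraic over the prime field
-/

open CategoryTheory Limits AlgebraicGeometry Polynomial
open Pool.Agent.Lib.MP_211349_ag

universe u

/-- Let `K` be a complete algebraically closed ultrametric field of characteristic `0` and residue
characteristic `p` with unit ball `O`, and suppose that the residue field of `O` is not algebraic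
over its prime field. Then there is `c₁` such that `P(c₁)` has norm `1` for all integral
polynomials `P` not divisible by `p`. For such `c₁` and for `c₂` algebraic over `ℚ`, let `C₁`, `C₂`
be the curves `y² = x (x² - 1) (1 - c x²)` for `c = c₁`, `c₂` if `p ≠ 2` (`c₂ ≠ 0, 1`), and the
curves `z² + x² z = x⁷ + c x` for `c = c₁`, `c₂` if `p = 2` (`c₂ ≠ 0, 1 / 64`). Then the semistable
models of finite étale coverings of `C₁` and `C₂` are never isomorphic modulo a nonzero element of
the maximal ideal of `O`. -/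
theorem Pool.Agent.Results.MP_211349_ag.LargeResidueField.result {K : Type u}
    [NontriviallyNormedField K] [IsUltrametricDist K] [CompleteSpace K] [IsAlgClosed K]
    [CharZero K] (p : ℕ) [Fact p.Prime] (hp : ‖(p : K)‖ < 1)
    (hk : ∃ x : IsLocalRing.ResidueField (unitBall K),
      ∀ P : ℤ[X], ¬ C (p : ℤ) ∣ P → aeval x P ≠ 0) :
    (∃ c₁ : K, ∀ P : ℤ[X], ¬ C (p : ℤ) ∣ P → ‖aeval c₁ P‖ = 1) ∧
    ∀ c₁ c₂ : K, (∀ P : ℤ[X], ¬ C (p : ℤ) ∣ P → ‖aeval c₁ P‖ = 1) → IsAlgebraic ℚ c₂ → c₂ ≠ 0 →
      (p ≠ 2 → c₂ ≠ 1 → NeverCloseSemistable (unitBall K) (toSpec K c₁) (toSpec K c₂)) ∧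
      (p = 2 → 64 * c₂ ≠ 1 →
        NeverCloseSemistable (unitBall K) (Even.toSpec K c₁) (Even.toSpec K c₂)) := by
  refine ⟨?_, ?_⟩
  · obtain ⟨x, hx⟩ := hk
    obtain ⟨y, rfl⟩ := IsLocalRing.residue_surjective x
    refine ⟨y, fun P hP => ?_⟩
    have h1 : IsLocalRing.residue (unitBall K) (aeval y P) ≠ 0 := by
      rw [aeval_def, hom_eval₂, RingHom.ext_int ((IsLocalRing.residue (unitBall K)).comp _)
        (algebraMap ℤ (IsLocalRing.ResidueField (unitBall K)))]
      exact hx P hP
    have h2 : IsUnit (aeval y P) := by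
      rwa [← IsLocalRing.residue_ne_zero_iff_isUnit]
    have h3 := (isUnit_unitBall _).mp h2
    have h4 : ((aeval y P : unitBall K) : K) = aeval (y : K) P := by
      exact (aeval_algebraMap_apply K y P).symm
    rwa [h4] at h3
  · intro c₁ c₂ hc₁ hc₂ hc₂0
    refine ⟨fun h2 hc₂1 => final_odd p h2 hp c₁ c₂ hc₁ hc₂ hc₂0 hc₂1, ?_⟩
    rintro rfl hc₂1
    refine final_even (by exact_mod_cast hp) c₁ c₂ ?_ hc₂ hc₂0 hc₂1
    intro P hP
    exact hc₁ P (by rwa [Nat.cast_ofNat])
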