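import Pool.Agent.Lib.MP_211349_ag.P2.Main

/-!
# A negative answer to the p-adic Ehrenpreis question for all fields of positive characteristic
-/

open CategoryTheory Limits AlgebraicGeometry
open Pool.Agent.Lib.MP_211349_ag

universe u

/-- Let `K` be a complete algebraically closed ultrametric field of characteristic `p > 0` with
unit ball `O`. Let `c₁` be algebraic over the prime field and `0 < |c₂| < 1`. If `p ≠ 2` let `C₁`,
`C₂` be the curves `y² = x (x² - 1) (1 - c x²)` for `c = c₁`, `c₂` (`c₁ ≠ 0, 1`), and if `p = 2` let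
them be the curves `z² + x² z = x⁷ + c x` for `c = c₁`, `c₂` (`c₁ ≠ 0`). Then every finite étale
covering of `C₁` has good reduction, no finite étale covering of `C₂` has good reduction, and the
models of finite étale coverings of `C₁` and `C₂` are never isomorphic modulo a nonzero element of
the maximal ideal of `O`. -/
theorem Pool.Agent.Results.MP_211349_ag.PositiveCharacteristic.result {K : Type u}
    [NontriviallyNormedField K] [IsUltrametricDist K] [CompleteSpace K] [IsAlgClosed K]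
    (p : ℕ) [Fact p.Prime] [CharP K p] :
    (p ≠ 2 →
      (∃ c₁ c₂ : K, (∃ n, 0 < n ∧ c₁ ^ p ^ n = c₁) ∧ c₁ ≠ 0 ∧ c₁ ≠ 1 ∧ c₂ ≠ 0 ∧ ‖c₂‖ < 1) ∧
      ∀ c₁ c₂ : K, (∃ n, 0 < n ∧ c₁ ^ p ^ n = c₁) → c₁ ≠ 0 → c₁ ≠ 1 → c₂ ≠ 0 → ‖c₂‖ < 1 →
        NeverClose (unitBall K) (toSpec K c₁) (toSpec K c₂)) ∧
    (p = 2 →
      (∃ c₁ c₂ : K, (∃ n, 0 < n ∧ c₁ ^ p ^ n = c₁) ∧ c₁ ≠ 0 ∧ c₂ ≠ 0 ∧ ‖c₂‖ < 1) ∧
      ∀ c₁ c₂ : K, (∃ n, 0 < n ∧ c₁ ^ p ^ n = c₁) → c₁ ≠ 0 → c₂ ≠ 0 → ‖c₂‖ < 1 →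
        NeverClose (unitBall K) (Even.toSpec K c₁) (Even.toSpec K c₂)) := by
  obtain ⟨x, hx0, hx1⟩ := NormedField.exists_norm_lt_one K
  refine ⟨fun hp => ⟨⟨-1, x, ⟨1, one_pos, ?_⟩, neg_ne_zero.mpr one_ne_zero, ?_,
    norm_pos_iff.mp hx0, hx1⟩, ?_⟩, ?_⟩
  · rw [pow_one]
    exact ((Fact.out : p.Prime).odd_of_ne_two hp).neg_one_pow
  · intro h
    have h2 : ((2 : ℕ) : K) = 0 := by
      have h3 : (1 : K) + 1 = 0 := by
        nth_rewrite 1 [← h]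
        exact neg_add_cancel 1
      rw [← one_add_one_eq_two, Nat.cast_add, Nat.cast_one]
      exact h3
    have h' := (CharP.cast_eq_zero_iff K p 2).mp h2
    exact hp ((Nat.prime_dvd_prime_iff_eq (Fact.out : p.Prime) Nat.prime_two).mp h')
  · intro c₁ c₂ hc₁ hc₁0 hc₁1 hc₂0 hc₂
    exact NeverClose.of rankOne_unitBall (final p hp c₁ c₂ hc₁ hc₁0 hc₁1 hc₂0 hc₂)
  · rintro rfl
    refine ⟨⟨1, x, ⟨1, one_pos, one_pow _⟩, one_ne_zero, norm_pos_iff.mp hx0, hx1⟩, ?_⟩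
    intro c₁ c₂ hc₁ hc₁0 hc₂0 hc₂
    exact NeverClose.of rankOne_unitBall (Even.final c₁ c₂ hc₁ hc₁0 hc₂0 hc₂)
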